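import Pool.Agent.H37.CF.Basic

/-!
# From primitive characters of the ring class group to ray class characters
-/

set_option autoImplicit false

open NumberField
open scoped nonZeroDivisors

namespace Pool.Agent.H70.CF

open Pool.Agent.H31.CN Pool.Agent.H95.CF Pool.Agent.H28.RC Pool.Agent.H37.CF
open Pool.Agent.H91.CF (ch npt npD xit xiD pit piD TrQ NRe NVc RQ nn rr ww fmD Fu)
open Pool.Agent.H24.Cls (Quad)

section

variable {K : Type} [Field K] [NumberField K]

theorem ex_prime (P : Ideal (𝓞 K)) (hP : P.IsPrime) : ∀ n : ℕ, 1 ≤ n → (n : 𝓞 K) ∈ P →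
    ∃ p : ℕ, p.Prime ∧ p ∣ n ∧ (p : 𝓞 K) ∈ P := by
  intro n
  induction n using Nat.strong_induction_on with
  | _ n ih =>
    intro hn hm
    by_cases h1 : n = 1
    · exfalso
      rw [h1, Nat.cast_one] at hm
      exact hP.ne_top ((Ideal.eq_top_iff_one P).2 hm)
    · have hp := Nat.minFac_prime h1
      obtain ⟨m, hnm⟩ := Nat.minFac_dvd n
      have h2 : (n : 𝓞 K) = (n.minFac : 𝓞 K) * (m : 𝓞 K) := by
        rw [← Nat.cast_mul, ← hnm]
      rw [h2] at hm
      rcases hP.mem_or_mem hm with h3 | h3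
      · exact ⟨n.minFac, hp, Nat.minFac_dvd n, h3⟩
      · have hm1 : 1 ≤ m := by
          rcases Nat.eq_zero_or_pos m with h4 | h4
          · rw [h4, mul_zero] at hnm
            omega
          · exact h4
        have hlt : m < n := by
          have h5 : m * 1 < m * n.minFac := Nat.mul_lt_mul_of_pos_left hp.one_lt hm1
          rw [mul_one, mul_comm m n.minFac, ← hnm] at h5
          exact h5
        obtain ⟨p, hp1, hp2, hp3⟩ := ih m hlt hm1 h3
        exact ⟨p, hp1, hp2.trans ⟨n.minFac, by rw [mul_comm]; exact hnm⟩, hp3⟩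

theorem sg_empty (x : K) : sg K ∅ x = 1 := by
  unfold sg
  rw [Finset.prod_empty]

theorem norm_chr {G : Type} [CommGroup G] [Finite G] (φ : G →* ℂˣ) (g : G) :
    ‖((φ g : ℂˣ) : ℂ)‖ = 1 := by
  have h1 : ((φ g : ℂˣ) : ℂ) ^ Nat.card G = 1 := by
    rw [← Units.val_pow_eq_pow_val, ← map_pow, pow_card_eq_one', map_one, Units.val_one]
  exact Complex.norm_eq_one_of_pow_eq_one h1 Nat.card_pos.ne'

open Classical in
/-- the character -/
noncomputable def ps (f : ℕ) {G : Type} [CommGroup G] (cl : Ideal (𝓞 K) → G) (φ : G →* ℂˣ)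
    (I : Ideal (𝓞 K)) : ℂ := if Pr K f I then ((φ (cl I) : ℂˣ) : ℂ) else 0

theorem ps_pos {f : ℕ} {G : Type} [CommGroup G] {cl : Ideal (𝓞 K) → G} {φ : G →* ℂˣ}
    {I : Ideal (𝓞 K)} (h : Pr K f I) : ps f cl φ I = ((φ (cl I) : ℂˣ) : ℂ) := by
  rw [ps, if_pos h]

theorem ps_neg {f : ℕ} {G : Type} [CommGroup G] {cl : Ideal (𝓞 K) → G} {φ : G →* ℂˣ}
    {I : Ideal (𝓞 K)} (h : ¬ Pr K f I) : ps f cl φ I = 0 := by
  rw [ps, if_neg h]

theorem ps_rat {f : ℕ} {G : Type} [CommGroup G] {cl : Ideal (𝓞 K) → G} {φ : G →* ℂˣ}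
    (hcl : RG K f G cl) {a : 𝓞 K} (h : Rat K f f a) : ps f cl φ (Ideal.span {a}) = 1 := by
  rw [ps_pos h.1, cl_rat hcl h, map_one, Units.val_one]

end

theorem pf_GTR (hICP : Pool.Agent.H31.CN.T_ICP) (hPRA : T_PRA) : T_GTR := by
  intro K _ _ D f G _ _ cl hIQ hf hcl φ hφ
  have hf0 : (f : 𝓞 K) ≠ 0 := by
    have h1 : f ≠ 0 := by omega
    exact_mod_cast h1
  let χ : RCC K :=
    { f := Ideal.span {(f : 𝓞 K)}
      S := ∅
      ψ := ps f cl φ
      f_ne := by
        rwa [Ne, Ideal.span_singleton_eq_bot]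
      map_one := by
        rw [ps_pos (pr_top K f), cl_top hcl, map_one, Units.val_one]
      map_mul := by
        intro I J
        by_cases h1 : Pr K f (I * J)
        · obtain ⟨h2, h3⟩ := pr_mul.1 h1
          rw [ps_pos h1, ps_pos h2, ps_pos h3, hcl.mul I J h2 h3, _root_.map_mul,
            Units.val_mul]
        · rw [ps_neg h1]
          by_cases h2 : Pr K f I
          · have h3 : ¬ Pr K f J := fun h3 => h1 (pr_mul.2 ⟨h2, h3⟩)
            rw [ps_neg h3, mul_zero]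
          · rw [ps_neg h2, zero_mul]
      map_bot := ps_neg fun h => h.1 rfl
      norm_one := by
        intro I h1 h2
        rw [ps_pos ⟨h1, h2⟩]
        exact norm_chr φ _
      eq_zero := by
        intro I h1
        exact ps_neg fun h2 => h1 h2.2
      princ := by
        intro a ha h1
        rw [sg_empty, ps_rat hcl]
        exact ⟨pr_of_inv (b := 1) ha (by rwa [mul_one]), 1, by rwa [Int.cast_one]⟩
      prim := by
        intro P hP hfP
        have h1 : (f : 𝓞 K) ∈ P := hfP (Ideal.mem_span_singleton_self _)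
        obtain ⟨p, hp, hpf, hpP⟩ := ex_prime P hP f hf h1
        obtain ⟨g, ⟨a, ha, hag⟩, hg⟩ := hφ p hp hpf
        obtain ⟨m, hm1, hmf, hm⟩ := hPRA K f p a P hIQ.deg hf hp hpf ha hP hpP
        have hm2 := pr_nat (K := K) hm1 hmf
        have h2 : Pr K f (Ideal.span {(m : 𝓞 K) * a}) := pr_span_mul.2 ⟨hm2, ha.1⟩
        refine ⟨(m : 𝓞 K) * a, pr_ne h2, h2.2, hm, ?_⟩
        rw [sg_empty, ps_pos h2, cl_span_mul hcl hm2 ha.1, cl_rat hcl (rat_nat hm1 hmf), one_mul,
          hag]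
        intro h3
        exact hg (Units.ext h3) }
  refine ⟨χ, rfl, ?_, ?_⟩
  · intro n hn h1
    have h2 : (n : 𝓞 K) ≠ 0 := by
      have h3 : n ≠ 0 := by omega
      exact_mod_cast h3
    have h3 : Pr K f (Ideal.span {(n : 𝓞 K)}) := ⟨by rwa [Ne, Ideal.span_singleton_eq_bot], h1⟩
    exact ps_rat hcl ⟨h3, n, by simp⟩
  · intro I hI
    exact ps_pos hI

end Pool.Agent.H70.CF
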